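import Pool.Agent.Lib.MP_228c3b_gt.Main

/-!
# MP_228c3b_gt: the torsion growth of `X × X` controls the mod `p` homology growth of `X`

`X` is a finite complex with fundamental group `G`, given by the cellular chain complex of its universal
cover over `ℤ[G]` (`CellComplex G`); `X[N]` is its finite cover with group `N`.
-/

set_option autoImplicit false

namespace Pool.Agent.Results.MP_228c3b_gt.ModPGrowth

open Filter Topology Pool.Agent.Lib.MP_228c3b_gt

/-- Let `(G_i)` be a finite index normal chain in `G`. If `ln |tors H_m(X[G_i] × X[G_i]; ℤ)| / [G : G_i]²` tends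
to `0` for all `m`, then for all large `i`, all primes `p` and all `n`,
`b_n(X[G_i]; F_p) ≤ b_n(X[G_i]; ℚ) + ε [G : G_i]`, and `b_n(X[G_i]; F_p) ≤ ε [G : G_i]` if the `n`-th `L²`-Betti
number of the universal cover vanishes. (For a closed aspherical manifold `X` the hypothesis is the statement
of the question for the even dimensional closed aspherical manifold `X × X` and the chain `G_i × G_i`.) -/
theorem result {G : Type} [Group G] (C : CellComplex G) (N : NormalChain G)
    (hT : ∀ m, TorsionGrowthVanishes (C.prod C) N.square m) (ε : ℝ) (hε : 0 < ε) :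
    ∀ᶠ i in atTop, ∀ (p : ℕ) [Fact p.Prime] (n : ℕ),
      (C.betti (ZMod p) (N.grp i) n : ℝ) ≤ C.betti ℚ (N.grp i) n + ε * (N.grp i).index ∧
      (C.L2BettiVanishes n → (C.betti (ZMod p) (N.grp i) n : ℝ) ≤ ε * (N.grp i).index) :=
  main C N hT hε

end Pool.Agent.Results.MP_228c3b_gt.ModPGrowth
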